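import Mathlib

/-!
# Avalanche complexes of digraphs and wedges of spheres
-/

set_option autoImplicit false

namespace Pool.Agent.V11212.Av

/-- A finite digraph on the vertex set `V`: no loops and no multiple arcs. -/
structure DG (V : Type) where
  /-- `arc u v` says that there is an arc from `u` to `v` -/
  arc : V → V → Prop
  loopless : ∀ v, ¬ arc v v

section
variable {V : Type} [Fintype V]

open Classical in
/-- The out-degree. -/
noncomputable def DG.outdeg (G : DG V) (v : V) : ℕ := (Finset.univ.filter (fun u => G.arc v u)).card

/-- A non-sink vertex holding at least out-degree many grains: exactly these vertices fire. -/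
def DG.Unstable (G : DG V) (c : V → ℕ) (v : V) : Prop := G.outdeg v ≠ 0 ∧ G.outdeg v ≤ c v

open Classical in
/-- One step of the parallel firing dynamics. -/
noncomputable def DG.step (G : DG V) (c : V → ℕ) (v : V) : ℕ :=
  c v - (if G.Unstable c v then G.outdeg v else 0) +
    (Finset.univ.filter (fun u => G.Unstable c u ∧ G.arc u v)).card

/-- The configuration at time `t`. -/
noncomputable def DG.conf (G : DG V) (c₀ : V → ℕ) : ℕ → V → ℕ
  | 0 => c₀
  | t + 1 => G.step (G.conf c₀ t)

/-- The simplices of the avalanche complex: the nonempty subsets of the firing sets. -/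
def DG.Face (G : DG V) (c₀ : V → ℕ) (s : Finset V) : Prop :=
  s.Nonempty ∧ ∃ t, ∀ v ∈ s, G.Unstable (G.conf c₀ t) v

/-- The underlying undirected graph is connected. -/
def DG.WeaklyConnected (G : DG V) : Prop := (SimpleGraph.fromRel G.arc).Connected

open Classical in
/-- The geometric realization of the simplicial complex whose simplices are the finite sets
satisfying `F`: the points are given by their barycentric coordinates. -/
def Realization (F : Finset V → Prop) : Set (V → ℝ) :=
  {w | (∀ v, 0 ≤ w v) ∧ ∑ v, w v = 1 ∧ F (Finset.univ.filter (fun v => w v ≠ 0))}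
end

/-- The sphere of dimension `d`. -/
abbrev Sph (d : ℕ) : Type := Metric.sphere (0 : EuclideanSpace ℝ (Fin (d + 1))) 1

/-- Its base point `(1, 0, ..., 0)`. -/
noncomputable def base (d : ℕ) : Sph d := ⟨EuclideanSpace.single 0 1, by simp⟩

/-- A point and the spheres of dimensions `d 0, ..., d (m - 1)`, side by side. -/
abbrev Pre {m : ℕ} (d : Fin m → ℕ) : Type := Unit ⊕ (Σ i, Sph (d i))

/-- The base points of the spheres are identified with the additional point. -/
inductive Glue {m : ℕ} (d : Fin m → ℕ) : Pre d → Pre d → Prop
  | mk (i : Fin m) : Glue d (Sum.inl ()) (Sum.inr ⟨i, base (d i)⟩)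

/-- The wedge of the spheres of dimensions `d 0, ..., d (m - 1)` (a point for `m = 0`). -/
def Wedge {m : ℕ} (d : Fin m → ℕ) : Type := Quot (Glue d)

instance {m : ℕ} (d : Fin m → ℕ) : TopologicalSpace (Wedge d) :=
  inferInstanceAs (TopologicalSpace (Quot (Glue d)))

end Pool.Agent.V11212.Av
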