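import Pool.Agent.V11212.Av.Real

/-! The delay line digraph: it realizes any finite complex up to homotopy. -/

set_option autoImplicit false

namespace Pool.Agent.V11212.Av

open Finset

section
variable {J : Type} [Fintype J] [DecidableEq J] {T : ℕ}

/-- non-sink vertices: main vertices and auxiliary vertices -/
abbrev Nd (J : Type) (T : ℕ) : Type := J ⊕ (J × Fin (T + 1) × Fin T)

/-- the next vertex; `none` is the sink -/
def nx : Nd J T → Option (Nd J T)
  | Sum.inl _ => none
  | Sum.inr (j, t, i) => if i.val = 0 then some (Sum.inl j) else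
      some (Sum.inr (j, t, ⟨i.val - 1, by omega⟩))

/-- the digraph -/
def gph (J : Type) (T : ℕ) : DG (Option (Nd J T)) where
  arc u v := ∃ a, u = some a ∧ nx a = v
  loopless := by
    rintro v ⟨a, rfl, h⟩
    rcases a with j | ⟨j, t, i⟩
    · simp [nx] at h
    · simp only [nx] at h
      split_ifs at h with h0
      · simp at h
      · simp only [Option.some.injEq, Sum.inr.injEq, Prod.mk.injEq, true_and] at h
        have := congrArg Fin.val h
        simp at this
        omega

/-- which vertices fire at time `t` -/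
def Dd (τ : Fin (T + 1) → Finset J) (t : ℕ) : Nd J T → Prop
  | Sum.inl j => ∃ h : t < T + 1, j ∈ τ ⟨t, h⟩
  | Sum.inr (j, t', i) => j ∈ τ t' ∧ i.val + 1 + t = t'.val

theorem outdeg_some (a : Nd J T) : (gph J T).outdeg (some a) = 1 := by
  classical
  rw [DG.outdeg, Finset.card_eq_one]
  refine ⟨nx a, ?_⟩
  ext v
  simp only [Finset.mem_filter, Finset.mem_univ, true_and, Finset.mem_singleton, gph,
    Option.some.injEq]
  constructor
  · rintro ⟨b, rfl, h⟩; exact h.symm
  · rintro rfl; exact ⟨a, rfl, rfl⟩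

theorem outdeg_none : (gph J T).outdeg none = 0 := by
  classical
  rw [DG.outdeg, Finset.card_eq_zero, Finset.eq_empty_iff_forall_notMem]
  intro v hv
  obtain ⟨a, h, _⟩ := (Finset.mem_filter.1 hv).2
  simp at h

open Classical in
/-- initial configuration -/
noncomputable def c0 (τ : Fin (T + 1) → Finset J) : Option (Nd J T) → ℕ
  | none => 0
  | some a => if Dd τ 0 a then 1 else 0

theorem Dd_pred (τ : Fin (T + 1) → Finset J) (t : ℕ) (a : Nd J T) :
    Dd τ (t + 1) a ↔ ∃ b, Dd τ t b ∧ nx b = some a := by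
  rcases a with j | ⟨j, t', i⟩
  · constructor
    · rintro ⟨h, hj⟩
      refine ⟨Sum.inr (j, ⟨t + 1, h⟩, ⟨0, by omega⟩), ⟨hj, ?_⟩, ?_⟩
      · simp; omega
      · simp [nx]
    · rintro ⟨b, hb, hbn⟩
      rcases b with j' | ⟨j', t', i⟩
      · simp [nx] at hbn
      · simp only [nx] at hbn
        split_ifs at hbn with h0
        · simp only [Option.some.injEq, Sum.inl.injEq] at hbn
          obtain ⟨h1, h2⟩ := hb
          subst hbn
          refine ⟨by omega, ?_⟩
          have : (⟨t + 1, by omega⟩ : Fin (T + 1)) = t' := Fin.ext (by simp; omega)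
          rw [this]; exact h1
        · simp at hbn
  · constructor
    · rintro ⟨h1, h2⟩
      have ht' := t'.2
      refine ⟨Sum.inr (j, t', ⟨i.val + 1, by omega⟩), ⟨h1, ?_⟩, ?_⟩
      · simp; omega
      · simp [nx]
    · rintro ⟨b, hb, hbn⟩
      rcases b with j' | ⟨j', t'', i'⟩
      · simp [nx] at hbn
      · simp only [nx] at hbn
        split_ifs at hbn with h0
        · simp at hbn
        · simp only [Option.some.injEq, Sum.inr.injEq, Prod.mk.injEq] at hbn
          obtain ⟨rfl, rfl, h3⟩ := hbn
          obtain ⟨h1, h2⟩ := hb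
          refine ⟨h1, ?_⟩
          have := congrArg Fin.val h3
          simp at this
          omega

theorem Dd_unique (τ : Fin (T + 1) → Finset J) (t : ℕ) {a : Nd J T} {b b' : Nd J T}
    (hb : Dd τ t b) (hb' : Dd τ t b') (h : nx b = some a) (h' : nx b' = some a) : b = b' := by
  rcases b with j | ⟨j, t1, i⟩
  · simp [nx] at h
  · rcases b' with j' | ⟨j', t1', i'⟩
    · simp [nx] at h'
    · obtain ⟨_, e1⟩ := hb
      obtain ⟨_, e2⟩ := hb'
      simp only [nx] at h h'
      split_ifs at h with h0 <;> split_ifs at h' with h0'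
      · simp only [Option.some.injEq] at h h'
        rw [← h'] at h
        simp only [Sum.inl.injEq] at h
        subst h
        have e3 : t1 = t1' := Fin.ext (by omega)
        have e4 : i = i' := Fin.ext (by omega)
        rw [e3, e4]
      · simp only [Option.some.injEq] at h h'
        rw [← h'] at h; simp at h
      · simp only [Option.some.injEq] at h h'
        rw [← h'] at h; simp at h
      · simp only [Option.some.injEq] at h h'
        rw [← h'] at h
        simp only [Sum.inr.injEq, Prod.mk.injEq] at h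
        obtain ⟨rfl, rfl, h3⟩ := h
        have := congrArg Fin.val h3
        simp at this
        have e4 : i = i' := Fin.ext (by omega)
        rw [e4]

theorem unstable_iff {c : Option (Nd J T) → ℕ} {P : Nd J T → Prop} [DecidablePred P]
    (hc : ∀ a, c (some a) = if P a then 1 else 0) (v : Option (Nd J T)) :
    (gph J T).Unstable c v ↔ ∃ a, v = some a ∧ P a := by
  rcases v with _ | a
  · constructor
    · rintro ⟨h, _⟩
      exact absurd outdeg_none h
    · rintro ⟨a, h, _⟩
      simp at h
  · rw [DG.Unstable, outdeg_some, hc]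
    constructor
    · rintro ⟨_, h⟩
      refine ⟨a, rfl, ?_⟩
      by_contra hP
      rw [if_neg hP] at h
      omega
    · rintro ⟨b, h1, h2⟩
      rw [Option.some.injEq] at h1
      subst h1
      rw [if_pos h2]
      exact ⟨one_ne_zero, le_rfl⟩

open Classical in
theorem conf_eq (τ : Fin (T + 1) → Finset J) (t : ℕ) :
    ∀ a, (gph J T).conf (c0 τ) t (some a) = if Dd τ t a then 1 else 0 := by
  induction t with
  | zero => intro a; rfl
  | succ t ih =>
    intro a
    have hu := unstable_iff (P := Dd τ t) ih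
    show (gph J T).step ((gph J T).conf (c0 τ) t) (some a) = _
    rw [DG.step, ih a, outdeg_some]
    have h1 : (gph J T).Unstable ((gph J T).conf (c0 τ) t) (some a) ↔ Dd τ t a := by
      rw [hu]
      constructor
      · rintro ⟨b, h1, h2⟩
        rw [Option.some.injEq] at h1
        subst h1; exact h2
      · intro h; exact ⟨a, rfl, h⟩
    have h2 : (if Dd τ t a then 1 else 0) -
        (if (gph J T).Unstable ((gph J T).conf (c0 τ) t) (some a) then 1 else 0) = 0 := by
      by_cases h : Dd τ t a
      · rw [if_pos h, if_pos (h1.2 h)]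
      · rw [if_neg h, if_neg (fun h' => h (h1.1 h'))]
    rw [h2, zero_add]
    have h3 : ∀ u, ((gph J T).Unstable ((gph J T).conf (c0 τ) t) u ∧ (gph J T).arc u (some a)) ↔
        ∃ b, u = some b ∧ Dd τ t b ∧ nx b = some a := by
      intro u
      rw [hu]
      constructor
      · rintro ⟨⟨b, rfl, hb⟩, b', h4, h5⟩
        rw [Option.some.injEq] at h4
        subst h4
        exact ⟨b, rfl, hb, h5⟩
      · rintro ⟨b, rfl, hb, h5⟩
        exact ⟨⟨b, rfl, hb⟩, b, rfl, h5⟩
    by_cases hD : Dd τ (t + 1) a
    · rw [if_pos hD, Finset.card_eq_one]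
      obtain ⟨b, hb, hbn⟩ := (Dd_pred τ t a).1 hD
      refine ⟨some b, ?_⟩
      ext u
      rw [Finset.mem_filter, h3, Finset.mem_singleton]
      constructor
      · rintro ⟨_, b', rfl, hb', hbn'⟩
        rw [Dd_unique τ t hb' hb hbn' hbn]
      · rintro rfl
        exact ⟨Finset.mem_univ _, b, rfl, hb, hbn⟩
    · rw [if_neg hD, Finset.card_eq_zero, Finset.eq_empty_iff_forall_notMem]
      intro u hu'
      rw [Finset.mem_filter, h3] at hu'
      obtain ⟨_, b, _, hb, hbn⟩ := hu'
      exact hD ((Dd_pred τ t a).2 ⟨b, hb, hbn⟩)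

theorem face_iff (τ : Fin (T + 1) → Finset J) (s : Finset (Option (Nd J T))) :
    (gph J T).Face (c0 τ) s ↔ s.Nonempty ∧ ∃ t, ∀ v ∈ s, ∃ a, v = some a ∧ Dd τ t a := by
  classical
  rw [DG.Face]
  refine and_congr_right fun _ => exists_congr fun t => forall_congr' fun v => ?_
  exact imp_congr_right fun _ => unstable_iff (P := Dd τ t) (conf_eq τ t) v

theorem Dd_lt {τ : Fin (T + 1) → Finset J} {t : ℕ} {a : Nd J T} (h : Dd τ t a) : t < T + 1 := by
  rcases a with j | ⟨j, t', i⟩
  · exact h.1
  · have h2 := h.2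
    have := t'.2
    omega

theorem connected : (gph J T).WeaklyConnected := by
  have key : ∀ (n : ℕ) (j : J) (t : Fin (T + 1)) (i : Fin T), i.val = n →
      (SimpleGraph.fromRel (gph J T).arc).Reachable (some (Sum.inr (j, t, i))) none := by
    have base : ∀ j : J, (SimpleGraph.fromRel (gph J T).arc).Reachable (some (Sum.inl j)) none := by
      intro j
      refine SimpleGraph.Adj.reachable ?_
      rw [SimpleGraph.fromRel_adj]
      exact ⟨by simp, Or.inl ⟨Sum.inl j, rfl, rfl⟩⟩
    intro n
    induction n with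
    | zero =>
      intro j t i hi
      refine SimpleGraph.Reachable.trans (SimpleGraph.Adj.reachable ?_) (base j)
      rw [SimpleGraph.fromRel_adj]
      refine ⟨by simp, Or.inl ⟨Sum.inr (j, t, i), rfl, ?_⟩⟩
      simp [nx, hi]
    | succ n ih =>
      intro j t i hi
      refine SimpleGraph.Reachable.trans (SimpleGraph.Adj.reachable ?_)
        (ih j t ⟨i.val - 1, by omega⟩ (by simp; omega))
      rw [SimpleGraph.fromRel_adj]
      refine ⟨?_, Or.inl ⟨Sum.inr (j, t, i), rfl, ?_⟩⟩
      · intro h
        simp only [Option.some.injEq, Sum.inr.injEq, Prod.mk.injEq, true_and] at h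
        have := congrArg Fin.val h
        simp at this
        omega
      · have h0 : ¬ i.val = 0 := by omega
        simp [nx, h0]
  have all : ∀ v, (SimpleGraph.fromRel (gph J T).arc).Reachable v none := by
    intro v
    rcases v with _ | (j | ⟨j, t, i⟩)
    · exact SimpleGraph.Reachable.refl _
    · refine SimpleGraph.Adj.reachable ?_
      rw [SimpleGraph.fromRel_adj]
      exact ⟨by simp, Or.inl ⟨Sum.inl j, rfl, rfl⟩⟩
    · exact key i.val j t i rfl
  haveI : Nonempty (Option (Nd J T)) := ⟨none⟩
  exact ⟨fun u v => (all u).trans (all v).symm⟩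

/-- the complex generated by the sets `τ t` -/
def Gen (τ : Fin (T + 1) → Finset J) (s : Finset J) : Prop := s.Nonempty ∧ ∃ t, s ⊆ τ t

/-- Every finite complex given by nonempty generating simplices is realized. -/
theorem realize (τ : Fin (T + 1) → Finset J) (hτ : ∀ t, (τ t).Nonempty) :
    Nonempty (ContinuousMap.HomotopyEquiv (Realization ((gph J T).Face (c0 τ)))
      (Realization (Gen τ))) := by
  classical
  let ρ : Option (Nd J T) → J := fun v => match v with
    | none => (hτ 0).choose
    | some (Sum.inl j) => j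
    | some (Sum.inr (j, t', i)) => if h : i.val + 1 ≤ t'.val then
        (hτ ⟨t'.val - (i.val + 1), by omega⟩).choose else j
  have hρ : ∀ t (ht : t < T + 1) a, Dd τ t a → ρ (some a) ∈ τ ⟨t, ht⟩ := by
    intro t ht a ha
    rcases a with j | ⟨j, t', i⟩
    · exact ha.2
    · have h2 := ha.2
      have h3 : i.val + 1 ≤ t'.val := by omega
      show (if h : i.val + 1 ≤ t'.val then
        (hτ ⟨t'.val - (i.val + 1), by omega⟩).choose else j) ∈ _
      rw [dif_pos h3]
      have h4 : (⟨t'.val - (i.val + 1), by omega⟩ : Fin (T + 1)) = ⟨t, ht⟩ :=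
        Fin.ext (by simp; omega)
      have h5 := (hτ ⟨t'.val - (i.val + 1), by omega⟩).choose_spec
      rw [h4] at h5 ⊢
      exact h5
  refine retract (fun j => some (Sum.inl j)) ρ (fun j => rfl) ?_ ?_ ?_ ?_
  · rintro s ⟨hs, t, hst⟩
    rw [face_iff]
    refine ⟨hs.image _, t.val, fun v hv => ?_⟩
    obtain ⟨j, hj, rfl⟩ := Finset.mem_image.1 hv
    exact ⟨Sum.inl j, rfl, t.2, hst hj⟩
  · intro s hs
    rw [face_iff] at hs
    obtain ⟨⟨v0, hv0⟩, t, ht⟩ := hs
    obtain ⟨a0, _, ha0⟩ := ht v0 hv0
    refine ⟨⟨ρ v0, Finset.mem_image_of_mem _ hv0⟩, ⟨t, Dd_lt ha0⟩, fun j hj => ?_⟩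
    obtain ⟨v, hv, rfl⟩ := Finset.mem_image.1 hj
    obtain ⟨a, rfl, ha⟩ := ht v hv
    exact hρ t _ a ha
  · intro s hs
    rw [face_iff] at hs ⊢
    obtain ⟨⟨v0, hv0⟩, t, ht⟩ := hs
    obtain ⟨a0, _, ha0⟩ := ht v0 hv0
    refine ⟨⟨v0, Finset.mem_union_left _ hv0⟩, t, fun v hv => ?_⟩
    rcases Finset.mem_union.1 hv with h | h
    · exact ht v h
    · obtain ⟨u, hu, rfl⟩ := Finset.mem_image.1 h
      obtain ⟨a, rfl, ha⟩ := ht u hu
      exact ⟨Sum.inl _, rfl, Dd_lt ha0, hρ t _ a ha⟩
  · rintro s t ⟨_, t', h⟩ hts ht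
    exact ⟨ht, t', fun v hv => h v (hts hv)⟩

end

end Pool.Agent.V11212.Av
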