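import Pool.Agent.V11212.Av.Defs

/-! Realizations, push forwards and contiguity. -/

set_option autoImplicit false

namespace Pool.Agent.V11212.Av

open Finset

section
variable {V J : Type} [Fintype V] [Fintype J]

open Classical in
/-- support of a function -/
noncomputable def sup (w : V → ℝ) : Finset V := univ.filter (fun v => w v ≠ 0)

theorem mem_sup {w : V → ℝ} {v : V} : v ∈ sup w ↔ w v ≠ 0 := by simp [sup]

theorem mem_real {F : Finset V → Prop} {w : V → ℝ} : w ∈ Realization F ↔
    (∀ v, 0 ≤ w v) ∧ ∑ v, w v = 1 ∧ F (sup w) := Iff.rfl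

theorem sup_nonempty {w : V → ℝ} (h : ∑ v, w v = 1) : (sup w).Nonempty := by
  by_contra hne
  rw [Finset.not_nonempty_iff_eq_empty] at hne
  have : ∑ v, w v = 0 := Finset.sum_eq_zero fun v _ => by
    by_contra hv
    have : v ∈ sup w := mem_sup.2 hv
    rw [hne] at this
    simp at this
  rw [this] at h
  exact zero_ne_one h

open Classical in
/-- push forward of weights -/
noncomputable def push (g : V → J) (w : V → ℝ) (j : J) : ℝ := ∑ v, if g v = j then w v else 0

theorem push_nonneg (g : V → J) {w : V → ℝ} (h : ∀ v, 0 ≤ w v) (j : J) : 0 ≤ push g w j := by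
  refine Finset.sum_nonneg fun v _ => ?_
  split_ifs
  · exact h v
  · exact le_rfl

theorem push_sum (g : V → J) (w : V → ℝ) : ∑ j, push g w j = ∑ v, w v := by
  classical
  unfold push
  rw [Finset.sum_comm]
  refine Finset.sum_congr rfl fun v _ => ?_
  rw [Finset.sum_ite_eq]
  simp

theorem push_continuous (g : V → J) : Continuous (push g) := by
  refine continuous_pi fun j => ?_
  unfold push
  refine continuous_finset_sum _ fun v _ => ?_
  by_cases h : g v = j
  · simp only [h, if_true]; exact continuous_apply v
  · simp only [h, if_false]; exact continuous_const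

theorem sup_push [DecidableEq J] (g : V → J) {w : V → ℝ} (h : ∀ v, 0 ≤ w v) :
    sup (push g w) = (sup w).image g := by
  ext j
  rw [mem_sup, Finset.mem_image]
  constructor
  · intro hj
    obtain ⟨v, _, hv⟩ := Finset.exists_ne_zero_of_sum_ne_zero hj
    split_ifs at hv with hg
    · exact ⟨v, mem_sup.2 hv, hg⟩
    · exact absurd rfl hv
  · rintro ⟨v, hv, rfl⟩
    have h1 : 0 < w v := lt_of_le_of_ne (h v) (Ne.symm (mem_sup.1 hv))
    have h2 : w v ≤ push g w (g v) := by
      unfold push
      refine le_trans (le_of_eq (if_pos rfl).symm) (Finset.single_le_sum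
        (f := fun u => @ite ℝ (g u = g v) (Classical.propDecidable _) (w u) 0)
        (fun u _ => ?_) (Finset.mem_univ v))
      split_ifs
      · exact h u
      · exact le_rfl
    exact (lt_of_lt_of_le h1 h2).ne'

theorem push_push {K : Type} [Fintype K] (g : V → J) (g' : J → K) (w : V → ℝ) :
    push g' (push g w) = push (g' ∘ g) w := by
  classical
  funext k
  unfold push
  have e : ∀ j, (if g' j = k then ∑ v, (if g v = j then w v else 0) else 0) =
      ∑ v, if g v = j ∧ g' j = k then w v else 0 := by
    intro j
    split_ifs with h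
    · refine Finset.sum_congr rfl fun v _ => ?_
      simp [h]
    · symm
      exact Finset.sum_eq_zero fun v _ => if_neg (fun h2 => h h2.2)
  rw [Finset.sum_congr rfl fun j _ => e j, Finset.sum_comm]
  refine Finset.sum_congr rfl fun v _ => ?_
  rw [Finset.sum_eq_single (g v)]
  · simp
  · intro j _ hj
    rw [if_neg (fun h => hj h.1.symm)]
  · intro h; exact absurd (Finset.mem_univ _) h

theorem push_id (g : V → V) (hg : ∀ v, g v = v) (w : V → ℝ) : push g w = w := by
  classical
  funext j
  unfold push
  rw [Finset.sum_eq_single j]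
  · simp [hg]
  · intro v _ hv; rw [if_neg]; rw [hg]; exact hv
  · intro h; exact absurd (Finset.mem_univ _) h

/-- Contiguity: a retraction of complexes. -/
theorem retract [DecidableEq V] [DecidableEq J] {F : Finset V → Prop} {K : Finset J → Prop}
    (ι : J → V) (ρ : V → J)
    (h1 : ∀ j, ρ (ι j) = j) (hK : ∀ s, K s → F (s.image ι)) (hF : ∀ s, F s → K (s.image ρ))
    (hC : ∀ s, F s → F (s ∪ s.image (ι ∘ ρ)))
    (hdown : ∀ s t, F s → t ⊆ s → t.Nonempty → F t) :
    Nonempty (ContinuousMap.HomotopyEquiv (Realization F) (Realization K)) := by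
  have hR : ∀ w ∈ Realization F, push ρ w ∈ Realization K := by
    intro w hw
    obtain ⟨h2, h3, h4⟩ := mem_real.1 hw
    refine mem_real.2 ⟨push_nonneg ρ h2, by rw [push_sum]; exact h3, ?_⟩
    rw [sup_push ρ h2]
    exact hF _ h4
  have hI : ∀ w ∈ Realization K, push ι w ∈ Realization F := by
    intro w hw
    obtain ⟨h2, h3, h4⟩ := mem_real.1 hw
    refine mem_real.2 ⟨push_nonneg ι h2, by rw [push_sum]; exact h3, ?_⟩
    rw [sup_push ι h2]
    exact hK _ h4
  let R : C(Realization F, Realization K) :=
    ⟨fun w => ⟨push ρ w.1, hR w.1 w.2⟩,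
      ((push_continuous ρ).comp continuous_subtype_val).subtype_mk _⟩
  let I : C(Realization K, Realization F) :=
    ⟨fun w => ⟨push ι w.1, hI w.1 w.2⟩,
      ((push_continuous ι).comp continuous_subtype_val).subtype_mk _⟩
  have hRI : R.comp I = ContinuousMap.id _ := by
    ext w : 1
    apply Subtype.ext
    show push ρ (push ι w.1) = w.1
    rw [push_push]
    exact push_id _ h1 _
  -- the linear homotopy
  let Hf : unitInterval × Realization F → (V → ℝ) := fun p v =>
    (1 - (p.1 : ℝ)) * push ι (push ρ p.2.1) v + (p.1 : ℝ) * p.2.1 v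
  have hH : ∀ p, Hf p ∈ Realization F := by
    rintro ⟨s, w, hw⟩
    obtain ⟨h2, h3, h4⟩ := mem_real.1 hw
    have h5 : ∀ v, 0 ≤ push ι (push ρ w) v := push_nonneg ι (push_nonneg ρ h2)
    have hs0 : 0 ≤ (s : ℝ) := s.2.1
    have hs1 : 0 ≤ 1 - (s : ℝ) := sub_nonneg.2 s.2.2
    have hsum : ∑ v, Hf (s, ⟨w, hw⟩) v = 1 := by
      show ∑ v, ((1 - (s : ℝ)) * push ι (push ρ w) v + (s : ℝ) * w v) = 1
      rw [Finset.sum_add_distrib, ← Finset.mul_sum, ← Finset.mul_sum, push_sum, push_sum, h3]
      ring
    refine mem_real.2 ⟨fun v => ?_, hsum, ?_⟩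
    · exact add_nonneg (mul_nonneg hs1 (h5 v)) (mul_nonneg hs0 (h2 v))
    · refine hdown _ _ (hC _ h4) (fun v hv => ?_) (sup_nonempty hsum)
      rw [Finset.mem_union]
      by_cases hwv : w v = 0
      · right
        have h6 : push ι (push ρ w) v ≠ 0 := by
          intro h0
          apply mem_sup.1 hv
          show (1 - (s : ℝ)) * push ι (push ρ w) v + (s : ℝ) * w v = 0
          rw [h0, hwv]; ring
        rw [push_push] at h6
        have h7 := mem_sup.2 h6
        rw [sup_push _ h2] at h7
        exact h7
      · exact Or.inl (mem_sup.2 hwv)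
  have hHc : Continuous Hf := by
    refine continuous_pi fun v => ?_
    have c1 : Continuous fun p : unitInterval × Realization F => (p.1 : ℝ) :=
      continuous_subtype_val.comp continuous_fst
    have c2 : Continuous fun p : unitInterval × Realization F => p.2.1 :=
      continuous_subtype_val.comp continuous_snd
    have c3 : Continuous fun p : unitInterval × Realization F => push ι (push ρ p.2.1) v :=
      (continuous_apply v).comp ((push_continuous ι).comp ((push_continuous ρ).comp c2))
    exact ((continuous_const.sub c1).mul c3).add (c1.mul ((continuous_apply v).comp c2))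
  let H : ContinuousMap.Homotopy (I.comp R) (ContinuousMap.id (Realization F)) :=
    { toFun := fun p => ⟨Hf p, hH p⟩
      continuous_toFun := hHc.subtype_mk _
      map_zero_left := fun w => by
        apply Subtype.ext
        funext v
        show (1 - ((0 : unitInterval) : ℝ)) * push ι (push ρ w.1) v +
          ((0 : unitInterval) : ℝ) * w.1 v = push ι (push ρ w.1) v
        simp
      map_one_left := fun w => by
        apply Subtype.ext
        funext v
        show (1 - ((1 : unitInterval) : ℝ)) * push ι (push ρ w.1) v +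
          ((1 : unitInterval) : ℝ) * w.1 v = w.1 v
        simp }
  exact ⟨⟨R, I, ⟨H⟩, by rw [hRI]⟩⟩

end

end Pool.Agent.V11212.Av
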