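import Pool.Agent.V11212.Av.Dyn

/-! Wedges of spheres as realizations of wedges of cross-polytope boundaries. -/

set_option autoImplicit false

namespace Pool.Agent.V11212.Av

open Finset

section sphere
variable {n : ℕ}

/-- the sum of the absolute values of the coordinates -/
noncomputable def N1 (x : EuclideanSpace ℝ (Fin (n + 1))) : ℝ := ∑ k, |x k|

/-- unnormalised coordinates -/
noncomputable def pc (x : EuclideanSpace ℝ (Fin (n + 1))) (kb : Fin (n + 1) × Bool) : ℝ :=
  if kb.2 then max (x kb.1) 0 else max (-(x kb.1)) 0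

/-- barycentric coordinates in the cross-polytope -/
noncomputable def ph (x : Sph n) (kb : Fin (n + 1) × Bool) : ℝ := pc x.1 kb / N1 x.1

theorem pc_nonneg (x : EuclideanSpace ℝ (Fin (n + 1))) (kb : Fin (n + 1) × Bool) : 0 ≤ pc x kb := by
  rw [pc]; split_ifs <;> exact le_max_right _ _

theorem pc_sum (x : EuclideanSpace ℝ (Fin (n + 1))) : ∑ kb, pc x kb = N1 x := by
  rw [Fintype.sum_prod_type, N1]
  refine Finset.sum_congr rfl fun k _ => ?_
  rw [Fintype.sum_bool]
  simp only [pc, if_true, Bool.false_eq_true, if_false]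
  exact max_zero_add_max_neg_zero_eq_abs_self _

theorem N1_pos {x : EuclideanSpace ℝ (Fin (n + 1))} (hx : x ≠ 0) : 0 < N1 x := by
  by_contra h
  apply hx
  have h0 : N1 x = 0 := le_antisymm (not_lt.1 h) (Finset.sum_nonneg fun k _ => abs_nonneg _)
  rw [N1, Finset.sum_eq_zero_iff_of_nonneg (fun k _ => abs_nonneg _)] at h0
  ext k
  simpa using h0 k (Finset.mem_univ k)

theorem sph_ne (x : Sph n) : x.1 ≠ 0 := by
  intro h
  have := x.2
  rw [h] at this
  simp at this

theorem ph_nonneg (x : Sph n) (kb : Fin (n + 1) × Bool) : 0 ≤ ph x kb :=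
  div_nonneg (pc_nonneg _ _) (N1_pos (sph_ne x)).le

theorem ph_sum (x : Sph n) : ∑ kb, ph x kb = 1 := by
  unfold ph
  rw [← Finset.sum_div, pc_sum, div_self (N1_pos (sph_ne x)).ne']

theorem ph_sub (x : Sph n) (k : Fin (n + 1)) :
    ph x (k, true) - ph x (k, false) = x.1 k / N1 x.1 := by
  rw [ph, ph, ← sub_div]
  congr 1
  simp only [pc, if_true, Bool.false_eq_true, if_false]
  rcases le_total 0 (x.1 k) with h | h
  · rw [max_eq_left h, max_eq_right (by linarith)]; ring
  · rw [max_eq_right h, max_eq_left (by linarith)]; ring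

theorem pc_anti (x : EuclideanSpace ℝ (Fin (n + 1))) (k : Fin (n + 1)) :
    pc x (k, true) = 0 ∨ pc x (k, false) = 0 := by
  simp only [pc, if_true, Bool.false_eq_true, if_false]
  rcases le_total 0 (x k) with h | h
  · right; exact max_eq_right (by linarith)
  · left; exact max_eq_right h

theorem ph_inj {x y : Sph n} (h : ∀ kb, ph x kb = ph y kb) : x = y := by
  have hx := N1_pos (sph_ne x)
  have hy := N1_pos (sph_ne y)
  have h1 : ∀ k, x.1 k / N1 x.1 = y.1 k / N1 y.1 := by
    intro k
    rw [← ph_sub, ← ph_sub, h, h]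
  have h2 : x.1 = (N1 x.1 / N1 y.1) • y.1 := by
    ext k
    rw [PiLp.smul_apply, smul_eq_mul]
    have := h1 k
    field_simp at this ⊢
    linarith
  have h3 : ‖x.1‖ = N1 x.1 / N1 y.1 * ‖y.1‖ := by
    conv_lhs => rw [h2]
    rw [norm_smul, Real.norm_of_nonneg (div_nonneg hx.le hy.le)]
  have hnx : ‖x.1‖ = 1 := by simpa using x.2
  have hny : ‖y.1‖ = 1 := by simpa using y.2
  rw [hnx, hny, mul_one] at h3
  apply Subtype.ext
  rw [h2, ← h3, one_smul]

theorem ph_base (kb : Fin (n + 1) × Bool) :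
    ph (base n) kb = if kb = (0, true) then 1 else 0 := by
  have hb : ∀ k, (base n).1 k = if k = 0 then 1 else 0 := by
    intro k
    simp [base, Pi.single_apply]
  have hN : N1 (base n).1 = 1 := by
    rw [N1]
    have : ∀ k, |(base n).1 k| = if k = 0 then (1 : ℝ) else 0 := by
      intro k; rw [hb]; split_ifs <;> simp
    rw [Finset.sum_congr rfl fun k _ => this k]
    simp
  rw [ph, hN, div_one, pc]
  rcases kb with ⟨k, b⟩
  simp only
  rw [hb]
  by_cases hk : k = 0
  · subst hk
    cases b <;> simp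
  · cases b <;> simp [hk]

theorem eq_base {x : Sph n} (h : ∀ kb, kb ≠ (0, true) → ph x kb = 0) : x = base n := by
  apply ph_inj
  intro kb
  rw [ph_base]
  split_ifs with h0
  · subst h0
    have := ph_sum x
    rw [Finset.sum_eq_single (0, true)] at this
    · exact this
    · intro kb _ hkb; exact h kb hkb
    · intro h; exact absurd (Finset.mem_univ _) h
  · exact h kb h0

theorem ph_continuous : Continuous (fun x : Sph n => ph x) := by
  refine continuous_pi fun kb => ?_
  unfold ph
  have hk : ∀ k, Continuous fun x : Sph n => x.1 k := fun k =>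
    (PiLp.continuous_apply 2 _ k).comp continuous_subtype_val
  refine Continuous.div ?_ ?_ (fun x => (N1_pos (sph_ne x)).ne')
  · unfold pc
    rcases kb with ⟨k, b⟩
    cases b
    · simpa using (hk k).neg.max continuous_const
    · simpa using (hk k).max continuous_const
  · unfold N1
    exact continuous_finsetSum _ fun k _ => (hk k).abs

/-- surjectivity -/
theorem exists_ph {w : Fin (n + 1) × Bool → ℝ} (h0 : ∀ kb, 0 ≤ w kb) (h1 : ∑ kb, w kb = 1)
    (ha : ∀ k, w (k, true) = 0 ∨ w (k, false) = 0) : ∃ x : Sph n, ∀ kb, ph x kb = w kb := by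
  let y : EuclideanSpace ℝ (Fin (n + 1)) := WithLp.toLp 2 fun k => w (k, true) - w (k, false)
  have hy : ∀ k, y k = w (k, true) - w (k, false) := fun k => rfl
  have hpc : ∀ kb, pc y kb = w kb := by
    rintro ⟨k, b⟩
    have hT := h0 (k, true)
    have hF := h0 (k, false)
    cases b
    · simp only [pc, Bool.false_eq_true, if_false, hy]
      rcases ha k with h | h
      · rw [h, zero_sub, neg_neg, max_eq_left hF]
      · rw [h, sub_zero, max_eq_right (by linarith)]
    · simp only [pc, if_true, hy]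
      rcases ha k with h | h
      · rw [h, zero_sub, max_eq_right (by linarith)]
      · rw [h, sub_zero, max_eq_left hT]
  have hN : N1 y = 1 := by
    rw [← pc_sum, Finset.sum_congr rfl fun kb _ => hpc kb, h1]
  have hy0 : y ≠ 0 := by
    intro h
    rw [h, N1] at hN
    simp at hN
  have hn : 0 < ‖y‖ := norm_pos_iff.2 hy0
  refine ⟨⟨‖y‖⁻¹ • y, ?_⟩, fun kb => ?_⟩
  · rw [mem_sphere_zero_iff_norm, norm_smul, norm_inv, norm_norm]
    exact inv_mul_cancel₀ hn.ne'
  · have hNs : N1 (‖y‖⁻¹ • y) = ‖y‖⁻¹ := by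
      rw [N1]
      have : ∀ k, |(‖y‖⁻¹ • y) k| = ‖y‖⁻¹ * |y k| := by
        intro k
        rw [PiLp.smul_apply, smul_eq_mul, abs_mul, abs_of_pos (inv_pos.2 hn)]
      rw [Finset.sum_congr rfl fun k _ => this k, ← Finset.mul_sum]
      have h2 : ∑ k, |y k| = 1 := hN
      rw [h2, mul_one]
    have hps : pc (‖y‖⁻¹ • y) kb = ‖y‖⁻¹ * pc y kb := by
      have hi : 0 ≤ ‖y‖⁻¹ := (inv_pos.2 hn).le
      rw [pc, pc]
      split_ifs
      · rw [PiLp.smul_apply, smul_eq_mul, mul_max_of_nonneg _ _ hi, mul_zero]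
      · rw [PiLp.smul_apply, smul_eq_mul, mul_max_of_nonneg _ _ hi, mul_zero, mul_neg]
    rw [ph]
    show pc (‖y‖⁻¹ • y) kb / N1 (‖y‖⁻¹ • y) = w kb
    rw [hNs, hps, hpc]
    field_simp

end sphere

section wedge
variable {m : ℕ} (d : Fin m → ℕ)

/-- vertices of the wedge complex -/
abbrev Jt : Type := Option (Σ i : Fin m, Fin (d i + 1) × Bool)

/-- the vertices of the `i`-th cross-polytope -/
def vm (i : Fin m) (kb : Fin (d i + 1) × Bool) : Jt d :=
  if kb = (0, true) then none else some ⟨i, kb⟩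

theorem vm_inj (i : Fin m) : Function.Injective (vm d i) := by
  intro a b h
  simp only [vm] at h
  split_ifs at h with h1 h2 h2
  · rw [h1, h2]
  · simpa using h

/-- no antipodal pair -/
def AF {n : ℕ} (A : Finset (Fin (n + 1) × Bool)) : Prop := ∀ k, ¬ ((k, true) ∈ A ∧ (k, false) ∈ A)

/-- the wedge complex -/
def KK (s : Finset (Jt d)) : Prop :=
  s.Nonempty ∧ (s = {none} ∨ ∃ i, ∃ A : Finset (Fin (d i + 1) × Bool), AF A ∧ s = A.image (vm d i))

theorem KK_down {s t : Finset (Jt d)} (h : KK d s) (hts : t ⊆ s) (ht : t.Nonempty) : KK d t := by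
  refine ⟨ht, ?_⟩
  rcases h.2 with h | ⟨i, A, hA, rfl⟩
  · left
    rw [h] at hts
    exact (Finset.subset_singleton_iff.1 hts).resolve_left ht.ne_empty
  · right
    refine ⟨i, A.filter (fun a => vm d i a ∈ t), fun k hk => hA k
      ⟨(Finset.mem_filter.1 hk.1).1, (Finset.mem_filter.1 hk.2).1⟩, ?_⟩
    ext j
    rw [Finset.mem_image]
    constructor
    · intro hj
      obtain ⟨a, ha, rfl⟩ := Finset.mem_image.1 (hts hj)
      exact ⟨a, Finset.mem_filter.2 ⟨ha, hj⟩, rfl⟩
    · rintro ⟨a, ha, rfl⟩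
      exact (Finset.mem_filter.1 ha).2

theorem push_vm (i : Fin m) (w : Fin (d i + 1) × Bool → ℝ) (kb : Fin (d i + 1) × Bool) :
    push (vm d i) w (vm d i kb) = w kb := by
  unfold push
  rw [Finset.sum_eq_single kb]
  · simp
  · intro kb' _ h
    rw [if_neg (fun h' => h (vm_inj d i h'))]
  · intro h; exact absurd (Finset.mem_univ _) h

theorem push_vm_out (i : Fin m) (w : Fin (d i + 1) × Bool → ℝ) (j : Jt d)
    (hj : ∀ kb, vm d i kb ≠ j) : push (vm d i) w j = 0 := by
  unfold push
  exact Finset.sum_eq_zero fun kb _ => if_neg (hj kb)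

/-- the point `none` -/
noncomputable def dl (j : Jt d) : ℝ := if j = none then 1 else 0

/-- the map on the disjoint union -/
noncomputable def Ph : Pre d → (Jt d → ℝ)
  | Sum.inl _ => dl d
  | Sum.inr ⟨i, x⟩ => push (vm d i) (ph x)

theorem Ph_mem (a : Pre d) : Ph d a ∈ Realization (KK d) := by
  classical
  rcases a with _ | ⟨i, x⟩
  · refine mem_real.2 ⟨fun v => ?_, ?_, ?_⟩
    · show 0 ≤ dl d v
      rw [dl]; split_ifs <;> norm_num
    · show ∑ v, dl d v = 1
      simp [dl]
    · have : sup (Ph d (Sum.inl ())) = {none} := by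
        ext j
        rw [mem_sup, Finset.mem_singleton]
        show dl d j ≠ 0 ↔ _
        rw [dl]
        by_cases hj : j = none <;> simp [hj]
      rw [this]
      exact ⟨⟨none, by simp⟩, Or.inl rfl⟩
  · have h1 : ∑ j, push (vm d i) (ph x) j = 1 := by rw [push_sum, ph_sum]
    refine mem_real.2 ⟨push_nonneg _ (ph_nonneg x), h1, ?_⟩
    refine ⟨sup_nonempty h1, Or.inr ⟨i, sup (ph x), fun k hk => ?_, ?_⟩⟩
    · obtain ⟨h2, h3⟩ := hk
      rw [mem_sup] at h2 h3
      rcases pc_anti x.1 k with h | h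
      · exact h2 (by rw [ph, h, zero_div])
      · exact h3 (by rw [ph, h, zero_div])
    · show sup (push (vm d i) (ph x)) = _
      rw [sup_push _ (ph_nonneg x)]

theorem Ph_base (i : Fin m) : Ph d (Sum.inr ⟨i, base (d i)⟩) = dl d := by
  funext j
  show push (vm d i) (ph (base (d i))) j = dl d j
  by_cases hj : ∃ kb, vm d i kb = j
  · obtain ⟨kb, rfl⟩ := hj
    rw [push_vm, ph_base, dl, vm]
    by_cases h : kb = (0, true) <;> simp [h]
  · push Not at hj
    rw [push_vm_out d i _ j hj, dl, if_neg]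
    rintro rfl
    exact hj (0, true) (by simp [vm])

theorem Ph_glue {a b : Pre d} (h : Glue d a b) : Ph d a = Ph d b := by
  obtain ⟨i⟩ := h
  rw [Ph_base]
  rfl

theorem Ph_continuous : Continuous (Ph d) := by
  refine continuous_sum_dom.2 ⟨continuous_const, ?_⟩
  refine continuous_sigma fun i => ?_
  exact (push_continuous _).comp ph_continuous

theorem eq_base_of (i : Fin m) (x : Sph (d i))
    (h : ∀ kb, kb ≠ (0, true) → Ph d (Sum.inr ⟨i, x⟩) (some ⟨i, kb⟩) = 0) : x = base (d i) := by
  apply eq_base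
  intro kb hkb
  have h1 := h kb hkb
  have h2 : vm d i kb = some ⟨i, kb⟩ := by simp [vm, hkb]
  rw [← h2] at h1
  have h3 : push (vm d i) (ph x) (vm d i kb) = 0 := h1
  rwa [push_vm] at h3

theorem Ph_inj {a b : Pre d} (h : Ph d a = Ph d b) : Quot.mk (Glue d) a = Quot.mk (Glue d) b := by
  have hpt : ∀ (i : Fin m) (x : Sph (d i)),
      (∀ kb, kb ≠ (0, true) → Ph d (Sum.inr ⟨i, x⟩) (some ⟨i, kb⟩) = 0) →
      Quot.mk (Glue d) (Sum.inr ⟨i, x⟩) = Quot.mk (Glue d) (Sum.inl ()) := by
    intro i x hx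
    rw [eq_base_of d i x hx]
    exact (Quot.sound (Glue.mk i)).symm
  have hdl : ∀ (i : Fin m) (kb : Fin (d i + 1) × Bool), dl d (some ⟨i, kb⟩) = 0 := by
    intro i kb; simp [dl]
  rcases a with _ | ⟨i, x⟩ <;> rcases b with _ | ⟨j, y⟩
  · rfl
  · refine (hpt j y fun kb _ => ?_).symm
    rw [← h]; exact hdl j kb
  · refine hpt i x fun kb _ => ?_
    rw [h]; exact hdl i kb
  · by_cases hij : i = j
    · subst hij
      have : x = y := by
        apply ph_inj
        intro kb
        have h1 := congrFun h (vm d i kb)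
        have h2 : push (vm d i) (ph x) (vm d i kb) = push (vm d i) (ph y) (vm d i kb) := h1
        rwa [push_vm, push_vm] at h2
      rw [this]
    · have hout : ∀ (i j : Fin m) (y : Sph (d j)), i ≠ j → ∀ kb,
          Ph d (Sum.inr ⟨j, y⟩) (some ⟨i, kb⟩) = 0 := by
        intro i j y hij kb
        refine push_vm_out d j _ _ fun kb' h' => ?_
        simp only [vm] at h'
        split_ifs at h'
        simp only [Option.some.injEq, Sigma.mk.injEq] at h'
        exact hij h'.1.symm
      rw [hpt i x fun kb _ => by rw [h]; exact hout i j y hij kb,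
        hpt j y fun kb _ => by rw [← h]; exact hout j i x (Ne.symm hij) kb]

theorem Ph_surj (w : Jt d → ℝ) (hw : w ∈ Realization (KK d)) : ∃ a, Ph d a = w := by
  classical
  obtain ⟨h0, h1, _, h2⟩ := mem_real.1 hw
  rcases h2 with h2 | ⟨i, A, hA, h2⟩
  · refine ⟨Sum.inl (), ?_⟩
    funext j
    show dl d j = w j
    have hz : ∀ j, j ≠ none → w j = 0 := by
      intro j hj
      by_contra hne
      have := mem_sup.2 hne
      rw [h2, Finset.mem_singleton] at this
      exact hj this
    rw [dl]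
    split_ifs with hj
    · subst hj
      rw [Finset.sum_eq_single none] at h1
      · exact h1.symm
      · intro j _ hj; exact hz j hj
      · intro h; exact absurd (Finset.mem_univ _) h
    · exact (hz j hj).symm
  · have hsupp : ∀ j, w j ≠ 0 → ∃ kb ∈ A, vm d i kb = j := by
      intro j hj
      have := mem_sup.2 hj
      rw [h2] at this
      exact Finset.mem_image.1 this
    obtain ⟨x, hx⟩ := exists_ph (n := d i) (w := fun kb => w (vm d i kb)) (fun kb => h0 _)
      (by
        have e : push (vm d i) (fun kb => w (vm d i kb)) = w := by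
          funext j
          by_cases hj : ∃ kb, vm d i kb = j
          · obtain ⟨kb, rfl⟩ := hj; rw [push_vm]
          · have hj' := hj
            push Not at hj'
            rw [push_vm_out d i _ j hj']
            by_contra hne
            obtain ⟨kb, _, hkb⟩ := hsupp j (Ne.symm hne)
            exact hj ⟨kb, hkb⟩
        rw [← push_sum (vm d i), e, h1])
      (fun k => by
        by_contra hcon
        push Not at hcon
        obtain ⟨kb, hkb, e1⟩ := hsupp _ hcon.1
        obtain ⟨kb', hkb', e2⟩ := hsupp _ hcon.2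
        rw [vm_inj d i e1] at hkb
        rw [vm_inj d i e2] at hkb'
        exact hA k ⟨hkb, hkb'⟩)
    refine ⟨Sum.inr ⟨i, x⟩, ?_⟩
    funext j
    show push (vm d i) (ph x) j = w j
    by_cases hj : ∃ kb, vm d i kb = j
    · obtain ⟨kb, rfl⟩ := hj
      rw [push_vm, hx]
    · have hj' := hj
      push Not at hj'
      rw [push_vm_out d i _ j hj']
      by_contra hne
      obtain ⟨kb, _, hkb⟩ := hsupp j (Ne.symm hne)
      exact hj ⟨kb, hkb⟩

/-- The wedge is homeomorphic to the realization of the wedge complex. -/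
theorem wedge_homeo : Nonempty (Wedge d ≃ₜ Realization (KK d)) := by
  let f : Wedge d → Realization (KK d) := Quot.lift (fun a => ⟨Ph d a, Ph_mem d a⟩)
    (fun a b h => Subtype.ext (Ph_glue d h))
  have hf : Continuous f :=
    continuous_quot_lift (r := Glue d) _ ((Ph_continuous d).subtype_mk _)
  have hb : Function.Bijective f := by
    constructor
    · intro a b h
      obtain ⟨a, rfl⟩ := Quot.exists_rep a
      obtain ⟨b, rfl⟩ := Quot.exists_rep b
      exact Ph_inj d (congrArg Subtype.val h)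
    · rintro ⟨w, hw⟩
      obtain ⟨a, ha⟩ := Ph_surj d w hw
      exact ⟨Quot.mk _ a, Subtype.ext ha⟩
  haveI : CompactSpace (Wedge d) := inferInstanceAs (CompactSpace (Quot (Glue d)))
  exact ⟨Continuous.homeoOfEquivCompactToT2 (f := Equiv.ofBijective f hb) hf⟩

/-- Every wedge of spheres is an avalanche complex up to homotopy. -/
theorem main : ∃ (V : Type) (_ : Fintype V) (G : DG V) (c₀ : V → ℕ), G.WeaklyConnected ∧
    Nonempty (ContinuousMap.HomotopyEquiv (Realization (G.Face c₀)) (Wedge d)) := by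
  classical
  let 𝓕 : Finset (Finset (Jt d)) := univ.filter (fun s => KK d s)
  have hne : 𝓕.Nonempty := ⟨{none}, Finset.mem_filter.2 ⟨Finset.mem_univ _, ⟨none, by simp⟩,
    Or.inl rfl⟩⟩
  obtain ⟨T, hT⟩ : ∃ T, 𝓕.card = T + 1 := ⟨𝓕.card - 1, by have := Finset.card_pos.2 hne; omega⟩
  let e : 𝓕 ≃ Fin (T + 1) := 𝓕.equivFinOfCardEq hT
  let τ : Fin (T + 1) → Finset (Jt d) := fun t => (e.symm t).1
  have hτ : ∀ t, KK d (τ t) := fun t => (Finset.mem_filter.1 (e.symm t).2).2
  have hG : ∀ s, Gen τ s ↔ KK d s := by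
    intro s
    constructor
    · rintro ⟨h1, t, h2⟩
      exact KK_down d (hτ t) h2 h1
    · intro h
      refine ⟨h.1, e ⟨s, Finset.mem_filter.2 ⟨Finset.mem_univ _, h⟩⟩, ?_⟩
      show s ⊆ (e.symm (e _)).1
      rw [Equiv.symm_apply_apply]
  have hGK : Gen τ = KK d := funext fun s => propext (hG s)
  obtain ⟨h1⟩ := realize τ (fun t => (hτ t).1)
  rw [hGK] at h1
  obtain ⟨h2⟩ := wedge_homeo d
  exact ⟨_, inferInstance, gph (Jt d) T, c0 τ, connected, ⟨h1.trans h2.symm.toHomotopyEquiv⟩⟩

end wedge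

end Pool.Agent.V11212.Av
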